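import Pool.Agent.Lib.MP_75d53c_ag.Translate

/-! # The double-point locus of the moduli map of a general plane sextic is a curve -/

set_option autoImplicit false

open MvPolynomial Pool.Agent.Lib.MP_75d53c_ag

/-- There is a nonzero polynomial `Δ` in the coefficients of a ternary sextic form such that,
whenever `Δ` does not vanish at `F`, the double-point locus of the moduli map of the plane sextic
`{F = 0}`, that is the Zariski closure of the set of transversal lines whose six-point section is
projectively equivalent to that of another transversal line, is a curve in the dual plane. -/
theorem Pool.Agent.Results.MP_75d53c_ag.DoublePointCurve.result :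
    ∃ Δ : MvPolynomial {m : Fin 3 →₀ ℕ // m.degree = 6} ℂ, Δ ≠ 0 ∧
      ∀ F : MvPolynomial (Fin 3) ℂ, F.IsHomogeneous 6 →
        eval (fun m => coeff m.1 F) Δ ≠ 0 →
          IsPlaneCurve (zariskiClosure (doubleLines F)) :=
  double_point_curve
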